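import Mathlib

/-! # Brody curves and flat distances on surfaces (MP_45e720_ag): definitions for the statement

A complex manifold is a charted space over a finite-dimensional complex normed space `E` with
analytic transition maps; `chartAt E x` is its chart at the point `x`. -/

set_option autoImplicit false

open Filter Topology
open scoped Manifold ContDiff

namespace Pool.Agent.BD

section

variable (E : Type) {X : Type} [NormedAddCommGroup E] [NormedSpace ℂ E] [TopologicalSpace X]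
  [ChartedSpace E X]

/-- The derivative at `x` of the function `f` in the chart at `x`. -/
noncomputable def cd {F : Type} [NormedAddCommGroup F] [NormedSpace ℂ F] (f : X → F) (x : X) :
    E →L[ℂ] F :=
  fderiv ℂ (fun e => f ((chartAt E x).symm e)) (chartAt E x x)

/-- `s` is a section of the `k`-th power of the canonical bundle (a pluricanonical form): `s y` is
its coefficient in the chart at `y`. -/
def IsForm (k : ℕ) (s : X → X → ℂ) : Prop :=
  ∀ y : X, DifferentiableOn ℂ (fun e => s y ((chartAt E y).symm e)) (chartAt E y).target ∧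
    ∀ y' x : X, x ∈ (chartAt E y).source → x ∈ (chartAt E y').source →
      s y x = (fderiv ℂ (fun e => chartAt E y' ((chartAt E y).symm e))
        (chartAt E y x)).det ^ k * s y' x

/-- `σ` is a symmetric differential of degree `m`: `σ y x` is its value at `x`, a homogeneous
polynomial of degree `m` on the tangent space, in the chart at `y`. -/
def IsSymDiff (m : ℕ) (σ : X → X → E → ℂ) : Prop :=
  ∀ y : X, (∀ x ∈ (chartAt E y).source, ∀ v : E,
      DifferentiableAt ℂ (fun p : E × E => σ y ((chartAt E y).symm p.1) p.2) (chartAt E y x, v) ∧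
      ∀ y' : X, x ∈ (chartAt E y').source → σ y x v = σ y' x (fderiv ℂ (fun e =>
        chartAt E y' ((chartAt E y).symm e)) (chartAt E y x) v)) ∧
    ∀ x ∈ (chartAt E y).source, ∃ (n : ℕ) (l : ℕ → ℕ → E →L[ℂ] ℂ),
      ∀ v, σ y x v = ∑ i ∈ Finset.range n, ∏ j ∈ Finset.range m, l i j v

/-- `π` is holomorphic with injective derivatives. -/
def IsEtale {Y : Type} [TopologicalSpace Y] [ChartedSpace E Y] (π : Y → X) : Prop :=
  MDifferentiable 𝓘(ℂ, E) 𝓘(ℂ, E) π ∧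
    ∀ y : Y, Function.Injective (cd E (fun y' => chartAt E (π y) (π y')) y)

/-- Near `x` the function `ρ` is the pull-back of the distance of `V` by a holomorphic map. -/
def IsFlatAt (V : Type) [NormedAddCommGroup V] [NormedSpace ℂ V] (ρ : X → X → ℝ) (x : X) : Prop :=
  ∃ F : X → V, (∀ᶠ y in 𝓝 x, MDifferentiableAt 𝓘(ℂ, E) 𝓘(ℂ, V) F y) ∧
    ∀ᶠ p : X × X in 𝓝 (x, x), ρ p.1 p.2 = ‖F p.1 - F p.2‖

/-- `ρ` is a nontrivial flat distance. -/
def IsFlatDist (ρ : X → X → ℝ) : Prop :=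
  (∀ x : X, ∃ (V : Type) (_ : NormedAddCommGroup V) (_ : NormedSpace ℂ V),
    CompleteSpace V ∧ IsFlatAt E V ρ x) ∧ ∃ x : X, ¬ ∀ᶠ y in 𝓝 x, ρ x y = 0

/-- There is a nonconstant holomorphic map from `X` to the complex torus `W / Γ`, `Γ` a discrete
subgroup of `W`: modulo `Γ` the map `g` is locally the holomorphic map `F`. -/
def MapsTo (X W : Type) [TopologicalSpace X] [ChartedSpace E X] [NormedAddCommGroup W]
    [NormedSpace ℂ W] : Prop :=
  ∃ (Γ : AddSubgroup W) (g : X → W), (∃ r > 0, ∀ a ∈ Γ, a ≠ 0 → r < ‖a‖) ∧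
    (∀ x : X, ∃ F : X → W, ∀ᶠ y in 𝓝 x, MDifferentiableAt 𝓘(ℂ, E) 𝓘(ℂ, W) F y ∧
      g y - F y ∈ Γ) ∧ ∃ x y, g x - g y ∉ Γ

/-- `c` is a germ of a holomorphic curve (at the origin). -/
def IsGerm (c : ℂ → X) : Prop := ∀ᶠ z in 𝓝 (0 : ℂ), MDifferentiableAt 𝓘(ℂ, ℂ) 𝓘(ℂ, E) c z

/-- `L` is a jet gauge of order `k`. -/
def IsJetGauge (k : ℕ) (L : (ℂ → X) → ℝ) : Prop :=
  (∀ c : ℂ → X, IsGerm E c → 0 ≤ L c ∧ ∀ y : X, c 0 ∈ (chartAt E y).source →
    (deriv (fun z => chartAt E y (c z)) 0 = 0 → L c = 0) ∧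
    ∀ ε > 0, ∃ δ > 0, ∀ c' : ℂ → X, IsGerm E c' → c' 0 ∈ (chartAt E y).source →
      (∀ q ≤ k, ‖iteratedDeriv q (fun z => chartAt E y (c' z)) 0 -
        iteratedDeriv q (fun z => chartAt E y (c z)) 0‖ < δ) → L c' < L c + ε) ∧
  ∀ (f : ℂ → X) (r R : ℝ), 0 < r → r < R →
    (∀ z : ℂ, ‖z‖ < R → MDifferentiableAt 𝓘(ℂ, ℂ) 𝓘(ℂ, E) f z) →
      L f ≤ Real.circleAverage (fun z => L (fun w => f (z + w))) 0 r

/-- The germ `c` is null: all jet gauges vanish along it. -/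
def IsNullGerm (c : ℂ → X) : Prop :=
  ∀ᶠ z in 𝓝 (0 : ℂ), ∀ (k : ℕ) (L : (ℂ → X) → ℝ), IsJetGauge E k L → L (fun w => c (z + w)) = 0

/-- The germ `c` is tame: a nonzero pluricanonical form or a nontrivial flat distance vanishes
along it. -/
def IsTameGerm (c : ℂ → X) : Prop :=
  (∃ (k : ℕ) (s : X → X → ℂ), 0 < k ∧ IsForm E k s ∧ (∃ x, s x x ≠ 0) ∧
    ∀ᶠ z in 𝓝 (0 : ℂ), s (c z) (c z) = 0) ∨
  ∃ ρ : X → X → ℝ, IsFlatDist E ρ ∧ ∀ᶠ z in 𝓝 (0 : ℂ), ρ (c 0) (c z) = 0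

/-- `h` is a Brody curve: an entire curve with bounded derivative. -/
def IsBrodyCurve (h : ℂ → X) : Prop :=
  MDifferentiable 𝓘(ℂ, ℂ) 𝓘(ℂ, E) h ∧ ∀ x : X, ∃ V ∈ 𝓝 x, ∃ C : ℝ, ∀ z : ℂ, h z ∈ V →
    ‖deriv (fun w => chartAt E x (h w)) z‖ ≤ C

/-- `g` is a doubly periodic holomorphic map to `X`. -/
def IsElliptic (g : ℂ → X) : Prop :=
  MDifferentiable 𝓘(ℂ, ℂ) 𝓘(ℂ, E) g ∧ ∃ a b : ℂ, (a / b).im ≠ 0 ∧
    ∀ z, g (z + a) = g z ∧ g (z + b) = g z

/-- `h` is Zariski dense. -/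
def ZariskiDense (h : ℂ → X) : Prop :=
  ∀ (k : ℕ) (s : X → X → ℂ), 0 < k → IsForm E k s → (∀ z, s (h z) (h z) = 0) → ∀ x, s x x = 0

/-- `X` is Kobayashi hyperbolic at `x`. -/
def HyperbolicAt (x : X) : Prop :=
  ∃ V ∈ 𝓝 x, ∃ C : ℝ, ∀ f : ℂ → X, MDifferentiableOn 𝓘(ℂ, ℂ) 𝓘(ℂ, E) f (Metric.ball 0 1) →
    f 0 ∈ V → ‖deriv (fun z => chartAt E x (f z)) 0‖ ≤ C

variable (X)

/-- Every holomorphic map from a complex torus `V / Λ` to `X` is constant, `Λ` the lattice with the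
basis `b`. -/
def ConstantOnTori (V : Type) [NormedAddCommGroup V] [NormedSpace ℂ V] : Prop :=
  ∀ (ι : Type) (b : Module.Basis ι ℝ V) (f : V → X), MDifferentiable 𝓘(ℂ, V) 𝓘(ℂ, E) f →
    (∀ i v, f (v + b i) = f v) → ∀ v v', f v = f v'

/-- `X` is a surface with ample canonical bundle. -/
def CanonicalAmple : Prop :=
  Module.finrank ℂ E = 2 ∧ ∃ (k n : ℕ) (s : Fin n → X → X → ℂ), 0 < k ∧
    (∀ i, IsForm E k (s i)) ∧ ∀ x : X, (∃ i, s i x x ≠ 0) ∧
      ∀ (u : E) (m : ℂ), (∀ i, cd E (s i x) x u = m * s i x x) → u = 0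

/-- `Y` is a covering space of `X` which has a nonconstant holomorphic function `f` with bounded
derivative. -/
def IsBoundedCovering (Y : Type) [TopologicalSpace Y] [ChartedSpace E Y] : Prop :=
  ConnectedSpace Y ∧ IsManifold 𝓘(ℂ, E) ω Y ∧ ∃ (π : Y → X) (f : Y → ℂ),
    IsCoveringMap π ∧ IsEtale E π ∧ MDifferentiable 𝓘(ℂ, E) 𝓘(ℂ, ℂ) f ∧ (∃ y y', f y ≠ f y') ∧
      ∀ x : X, ∃ V ∈ 𝓝 x, ∃ C : ℝ, ∀ (y : Y) (u : E), π y ∈ V →
        ‖cd E f y u‖ ≤ C * ‖cd E (fun y' => chartAt E x (π y')) y u‖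

/-- `X` has a nontrivial flat distance; or a nonconstant holomorphic map to a complex torus; or two
symmetric differentials without common zero direction at a point; or all its null germs with
nonzero derivative are tame. -/
def IsTame : Prop :=
  (∃ ρ : X → X → ℝ, IsFlatDist E ρ) ∨
  (∃ (W : Type) (_ : NormedAddCommGroup W) (_ : NormedSpace ℂ W),
    FiniteDimensional ℂ W ∧ MapsTo E X W) ∨
  (∃ (m m' : ℕ) (σ σ' : X → X → E → ℂ) (x : X), 0 < m ∧ 0 < m' ∧ IsSymDiff E m σ ∧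
    IsSymDiff E m' σ' ∧ ∀ v : E, v ≠ 0 → σ x x v = 0 → σ' x x v ≠ 0) ∨
  ∀ c : ℂ → X, IsGerm E c → deriv (fun z => chartAt E (c 0) (c z)) 0 ≠ 0 → IsNullGerm E c →
    IsTameGerm E c

/-- `X'` is a finite unramified covering of `X` and tame. -/
def IsTameCovering (X' : Type) [TopologicalSpace X'] [ChartedSpace E X'] : Prop :=
  CompactSpace X' ∧ T2Space X' ∧ ConnectedSpace X' ∧ IsManifold 𝓘(ℂ, E) ω X' ∧
    (∃ π : X' → X, IsEtale E π) ∧ IsTame E X'

end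

end Pool.Agent.BD
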