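import Pool.Agent.Lib_helper51.BD.Defs
import Pool.Agent.Lib_helper58.ND.I4

/-! # Pluricanonical forms in the charts and plane forms -/

set_option autoImplicit false
set_option linter.unusedSectionVars false
set_option linter.unusedVariables false
set_option linter.unusedSimpArgs false

open Filter Topology Metric Set
open scoped Manifold ContDiff

namespace Pool.Agent.BD

open Pool.Agent.BR Pool.Agent.IS Pool.Agent.ND

variable {E X : Type} [NormedAddCommGroup E] [NormedSpace ℂ E] [FiniteDimensional ℂ E]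
  [TopologicalSpace X] [ChartedSpace E X] [IsManifold 𝓘(ℂ, E) ω X]

/-- the form as a function of pairs of tangent vectors -/
noncomputable def tau (e : Module.Basis (Fin 2) ℂ E) (k : ℕ) (s : X → X → ℂ) :
    BR.TangentPairs E X → ℂ :=
  fun p => s p.proj p.proj * i4_w e p.2.1 p.2.2 ^ k

theorem tau_chart (e : Module.Basis (Fin 2) ℂ E) {k : ℕ} {s : X → X → ℂ} (hs : IsForm E k s)
    {y x : X} (hx : x ∈ (chartAt E y).source) (u v : E) :
    tau e k s ⟨x, (u, v)⟩ = s y x * i4_w e (tangentCoordChange 𝓘(ℂ, E) x y x u)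
        (tangentCoordChange 𝓘(ℂ, E) x y x v) ^ k := by
  show s x x * i4_w e u v ^ k = _
  have h1 := (hs x).2 y x (mem_chart_source E x) hx
  have h2 := i4_w_map e (fderiv ℂ (fun e => chartAt E y ((chartAt E x).symm e))
    (chartAt E x x)) u v
  rw [SS.in2_tcc, SS.in2_tcc] at h2
  rw [h2, h1, mul_pow]
  show (LinearMap.det _) ^ k * s y x * _ = _
  ring

theorem tau_plane (e : Module.Basis (Fin 2) ℂ E) {k : ℕ} {s : X → X → ℂ} (hs : IsForm E k s) :
    BR.IsPlaneForm E X k (tau e k s) := by
  refine ⟨?_, ?_⟩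
  · intro p
    set x₀ := p.proj with hx₀
    have hxs : x₀ ∈ (chartAt E x₀).source := mem_chart_source E _
    have hps : p ∈ (frm_chart (E := E) x₀).source := by
      rw [frm_source]
      exact hxs
    obtain ⟨G, hG⟩ : ∃ G : ModelProd E (E × E) → ℂ, G = fun q =>
        s x₀ ((chartAt E x₀).symm q.1) * i4_w e q.2.1 q.2.2 ^ k := ⟨_, rfl⟩
    have h1 : DifferentiableAt ℂ (fun q : E × (E × E) => G q) (frm_chart (E := E) x₀ p) := by
      rw [hG]
      have h2 : DifferentiableAt ℂ (fun ξ : E => s x₀ ((chartAt E x₀).symm ξ))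
          (frm_chart (E := E) x₀ p).1 := by
        rw [e1_fst]
        exact (hs x₀).1.differentiableAt
          ((chartAt E x₀).open_target.mem_nhds ((chartAt E x₀).map_source hxs))
      have h4 : DifferentiableAt ℂ (fun q : E × (E × E) => s x₀ ((chartAt E x₀).symm q.1))
          (frm_chart (E := E) x₀ p) :=
        DifferentiableAt.comp (f := fun q : E × (E × E) => q.1)
          (g := fun ξ : E => s x₀ ((chartAt E x₀).symm ξ)) _ h2 differentiableAt_fst
      have h5 : DifferentiableAt ℂ (fun q : E × (E × E) => i4_w e q.2.1 q.2.2)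
          (frm_chart (E := E) x₀ p) :=
        DifferentiableAt.comp (f := fun q : E × (E × E) => q.2)
          (g := fun q : E × E => i4_w e q.1 q.2) _ (i4_w_diff e _) differentiableAt_snd
      exact h4.mul (h5.pow k)
    have h2 : MDifferentiableAt (𝓘(ℂ, E).prod 𝓘(ℂ, E × E)) 𝓘(ℂ, ℂ) G
        (frm_chart (E := E) x₀ p) := e1_conv h1
    have h3 : MDifferentiableAt (𝓘(ℂ, E).prod 𝓘(ℂ, E × E)) (𝓘(ℂ, E).prod 𝓘(ℂ, E × E))
        (frm_chart (E := E) x₀) p := mdifferentiableAt_atlas (chart_mem_atlas _ _) hps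
    have h4 : MDifferentiableAt (𝓘(ℂ, E).prod 𝓘(ℂ, E × E)) 𝓘(ℂ, ℂ)
        (fun p' => G (frm_chart (E := E) x₀ p')) p :=
      h2.comp (f := fun p' => frm_chart (E := E) x₀ p') p h3
    refine h4.congr_of_eventuallyEq ?_
    filter_upwards [(frm_chart (E := E) x₀).open_source.mem_nhds hps] with p' hp'
    rw [frm_source] at hp'
    obtain ⟨x, u, v⟩ := p'
    have hx : x ∈ (chartAt E x₀).source := hp'
    refine (tau_chart e hs hx u v).trans ?_
    have h5 := frm_apply (E := E) x₀ x u v
    show _ = G (frm_chart (E := E) x₀ (⟨x, (u, v)⟩ : BR.TangentPairs E X))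
    rw [h5, hG]
    show _ = s x₀ ((chartAt E x₀).symm (chartAt E x₀ x)) * _
    rw [(chartAt E x₀).left_inv hx]
  · intro x a b c d u v
    show s x x * i4_w e (a • u + b • v) (c • u + d • v) ^ k =
      (a * d - b * c) ^ k * (s x x * i4_w e u v ^ k)
    rw [i4_w_comb, mul_pow]
    ring

theorem tau_symm (e : Module.Basis (Fin 2) ℂ E) {k : ℕ} {s : X → X → ℂ} (hs : IsForm E k s)
    (x : X) {ξ : E} (hξ : ξ ∈ (chartAt E x).target) (u v : E) :
    tau e k s ((frm_chart (E := E) x).symm (ξ, (u, v))) =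
      s x ((chartAt E x).symm ξ) * i4_w e u v ^ k := by
  have h1 := (chartAt E x).map_target hξ
  rw [frm_symm x hξ, tau_chart e hs h1]
  have h2 : ∀ w : E, tangentCoordChange 𝓘(ℂ, E) ((chartAt E x).symm ξ) x ((chartAt E x).symm ξ)
      (tangentCoordChange 𝓘(ℂ, E) x ((chartAt E x).symm ξ) ((chartAt E x).symm ξ) w) = w := by
    intro w
    have h3 : tangentCoordChange 𝓘(ℂ, E) ((chartAt E x).symm ξ) x ((chartAt E x).symm ξ)
      (tangentCoordChange 𝓘(ℂ, E) x ((chartAt E x).symm ξ) ((chartAt E x).symm ξ) w) =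
        tangentCoordChange 𝓘(ℂ, E) x x ((chartAt E x).symm ξ) w := by
      refine tangentCoordChange_comp ?_
      simp only [extChartAt_source]
      exact ⟨⟨h1, mem_chart_source E _⟩, h1⟩
    rw [h3, tangentCoordChange_self]
    simp only [extChartAt_source]
    exact h1
  rw [h2, h2]

theorem canonicalAmple_old (h : CanonicalAmple E X) : BrodyRigid.CanonicalAmple E X := by
  obtain ⟨hE, k, n, s, hk, hs, h⟩ := h
  have e : Module.Basis (Fin 2) ℂ E := (Module.finBasis ℂ E).reindex (finCongr hE)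
  refine BrodyRigid.canonicalAmple_iff.2 ⟨hE, k, n, fun i => tau e k (s i), hk,
    fun i => tau_plane e (hs i), ?_⟩
  intro x u v huv
  obtain ⟨⟨i, hi⟩, h2⟩ := h x
  have hW : i4_w e u v ≠ 0 := by
    intro h0
    have h3 : ∀ a : E, a = e.repr a 0 • e 0 + e.repr a 1 • e 1 := by
      intro a
      have := e.sum_repr a
      rw [Fin.sum_univ_two] at this
      exact this.symm
    rw [LinearIndependent.pair_iff] at huv
    unfold i4_w at h0
    by_cases hu : e.repr u 0 = 0 ∧ e.repr u 1 = 0
    · have h4 : u = 0 := by rw [h3 u, hu.1, hu.2, zero_smul, zero_smul, add_zero]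
      have h5 := huv 1 0 (by rw [h4]; simp)
      exact one_ne_zero h5.1
    · have h6 : (e.repr v 0) • u + (-(e.repr u 0)) • v = 0 := by
        rw [h3 u, h3 v]
        simp only [map_add, map_smul, Finsupp.coe_add, Finsupp.coe_smul, Pi.add_apply,
          Pi.smul_apply, smul_eq_mul, Module.Basis.repr_self, smul_add, smul_smul]
        simp only [Finsupp.single_apply]
        simp only [Fin.isValue, one_ne_zero, zero_ne_one, if_true, if_false, mul_one, mul_zero,
          add_zero, zero_add, reduceIte]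
        have h7 : (e.repr v 0) * (e.repr u 0) = (e.repr u 0) * (e.repr v 0) := mul_comm _ _
        have h8 : e.repr v 0 * e.repr u 1 = e.repr u 0 * e.repr v 1 := by
          linear_combination -h0
        rw [h8, h7, neg_mul, neg_mul, neg_smul, neg_smul]
        abel
      have h6' : (e.repr v 1) • u + (-(e.repr u 1)) • v = 0 := by
        rw [h3 u, h3 v]
        simp only [map_add, map_smul, Finsupp.coe_add, Finsupp.coe_smul, Pi.add_apply,
          Pi.smul_apply, smul_eq_mul, Module.Basis.repr_self, smul_add, smul_smul]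
        simp only [Finsupp.single_apply]
        simp only [Fin.isValue, one_ne_zero, zero_ne_one, if_true, if_false, mul_one, mul_zero,
          add_zero, zero_add, reduceIte]
        have h7 : (e.repr v 1) * (e.repr u 1) = (e.repr u 1) * (e.repr v 1) := mul_comm _ _
        have h8 : e.repr v 1 * e.repr u 0 = e.repr u 1 * e.repr v 0 := by
          linear_combination h0
        rw [h8, h7, neg_mul, neg_mul, neg_smul, neg_smul]
        abel
      refine hu ⟨?_, ?_⟩
      · have := (huv _ _ h6).2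
        exact neg_eq_zero.1 this
      · have := (huv _ _ h6').2
        exact neg_eq_zero.1 this
  refine ⟨⟨i, mul_ne_zero hi (pow_ne_zero _ hW)⟩, ?_⟩
  intro ξ' u' v' m hm
  have hxs : chartAt E x x ∈ (chartAt E x).target := (chartAt E x).map_source (mem_chart_source E x)
  have hW' := (i4_w_diff e (u, v)).hasFDerivAt
  set dW : ℂ := fderiv ℂ (fun q : E × E => i4_w e q.1 q.2) (u, v) (u', v') with hdW
  refine h2 ξ' (m - k * dW / i4_w e u v) ?_
  intro j
  have h3 := hm j
  have h4 := frm_mfderiv (tau_plane e (hs j)).hol ⟨x, (u, v)⟩ (ξ', (u', v'))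
  change (mfderiv (𝓘(ℂ, E).prod 𝓘(ℂ, E × E)) 𝓘(ℂ, ℂ) (tau e k (s j)) ⟨x, (u, v)⟩
    (ξ', (u', v')) : ℂ) = m * (s j x x * i4_w e u v ^ k) at h3
  rw [h4] at h3
  have h5 : frm_chart (E := E) x (⟨x, (u, v)⟩ : BR.TangentPairs E X) =
      ((chartAt E x x, (u, v)) : E × (E × E)) := by
    rw [frm_apply]
    have h6 : ∀ w : E, tangentCoordChange 𝓘(ℂ, E) x x x w = w := by
      intro w
      rw [tangentCoordChange_self]
      simp only [extChartAt_source]
      exact mem_chart_source E x
    rw [h6, h6]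
  rw [h5] at h3
  have h6 : (fun q : E × (E × E) => tau e k (s j) ((frm_chart (E := E) x).symm q)) =ᶠ[
      𝓝 ((chartAt E x x, (u, v)) : E × (E × E))]
      fun q : E × (E × E) => s j x ((chartAt E x).symm q.1) * i4_w e q.2.1 q.2.2 ^ k := by
    have h7 : ContinuousAt (fun q : E × (E × E) => q.1) (chartAt E x x, (u, v)) :=
      continuous_fst.continuousAt
    filter_upwards [h7.preimage_mem_nhds ((chartAt E x).open_target.mem_nhds hxs)] with q hq
    obtain ⟨ξ, a, b⟩ := q
    exact tau_symm e (hs j) x hq a b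
  rw [h6.fderiv_eq] at h3
  have h7 : HasFDerivAt (fun ξ : E => s j x ((chartAt E x).symm ξ)) (cd E (s j x) x)
      (chartAt E x x) :=
    ((hs j x).1.differentiableAt ((chartAt E x).open_target.mem_nhds hxs)).hasFDerivAt
  have h8 : HasFDerivAt (fun q : E × (E × E) => s j x ((chartAt E x).symm q.1))
      ((cd E (s j x) x).comp (ContinuousLinearMap.fst ℂ E (E × E)))
      ((chartAt E x x, (u, v)) : E × (E × E)) :=
    HasFDerivAt.comp (g := fun ξ : E => s j x ((chartAt E x).symm ξ)) (f := fun q : E × (E × E) => q.1)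
      _ h7 (ContinuousLinearMap.fst ℂ E (E × E)).hasFDerivAt
  have h9 : HasFDerivAt (fun q : E × (E × E) => i4_w e q.2.1 q.2.2)
      ((fderiv ℂ (fun q : E × E => i4_w e q.1 q.2) (u, v)).comp
        (ContinuousLinearMap.snd ℂ E (E × E))) ((chartAt E x x, (u, v)) : E × (E × E)) :=
    HasFDerivAt.comp (g := fun q : E × E => i4_w e q.1 q.2) (f := fun q : E × (E × E) => q.2)
      _ hW' (ContinuousLinearMap.snd ℂ E (E × E)).hasFDerivAt
  have h10 := (h8.mul (h9.pow k)).fderiv
  have h11 := congrArg (fun L => L (ξ', (u', v'))) h10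
  simp only [_root_.add_apply, _root_.smul_apply,
    ContinuousLinearMap.comp_apply, ContinuousLinearMap.coe_fst', ContinuousLinearMap.coe_snd',
    smul_eq_mul, nsmul_eq_mul, (chartAt E x).left_inv (mem_chart_source E x)] at h11
  have h12 : fderiv ℂ (fun q : E × (E × E) =>
      s j x ((chartAt E x).symm q.1) * i4_w e q.2.1 q.2.2 ^ k)
      ((chartAt E x x, (u, v)) : E × (E × E)) (ξ', (u', v')) =
      s j x x * (k * i4_w e u v ^ (k - 1) * dW) + i4_w e u v ^ k * cd E (s j x) x ξ' := h11
  rw [h12] at h3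
  obtain ⟨k', rfl⟩ : ∃ k', k = k' + 1 := ⟨k - 1, by omega⟩
  have h3' : s j x x * (((k' + 1 : ℕ) : ℂ) * i4_w e u v ^ (k' + 1 - 1) * dW) +
      i4_w e u v ^ (k' + 1) * cd E (s j x) x ξ' = m * (s j x x * i4_w e u v ^ (k' + 1)) := h3
  rw [Nat.add_sub_cancel, pow_succ] at h3'
  have h13 : i4_w e u v ^ k' ≠ 0 := pow_ne_zero _ hW
  have h14 : i4_w e u v * cd E (s j x) x ξ' =
      i4_w e u v * (m * s j x x) - s j x x * ((k' + 1 : ℕ) * dW) := by
    apply mul_left_cancel₀ h13
    linear_combination h3'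
  field_simp
  linear_combination h14

end Pool.Agent.BD
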