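import Pool.Agent.Lib_helper51.BD.Defs
import Pool.Agent.Lib_helper82.KZ.Notions

/-! # Derivatives in the charts and in the tangent bundle -/

set_option autoImplicit false
set_option linter.unusedSectionVars false
set_option linter.unusedVariables false

open Filter Topology Metric Set
open scoped Manifold ContDiff

namespace Pool.Agent.BD

section

variable {E X : Type} [NormedAddCommGroup E] [NormedSpace ℂ E]
  [TopologicalSpace X] [ChartedSpace E X] [IsManifold 𝓘(ℂ, E) ω X]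

/-- the fibre coordinate in the chart at `y` -/
noncomputable def fb (y : X) (p : TangentBundle 𝓘(ℂ, E) X) : E :=
  (chartAt (ModelProd E E) (⟨y, 0⟩ : TangentBundle 𝓘(ℂ, E) X) p).2

theorem fb_chart (y : X) (p : TangentBundle 𝓘(ℂ, E) X) :
    chartAt (ModelProd E E) (⟨y, 0⟩ : TangentBundle 𝓘(ℂ, E) X) p =
      (chartAt E y p.1, fb y p) := rfl

theorem fb_eq (y : X) (p : TangentBundle 𝓘(ℂ, E) X) :
    fb y p = tangentCoordChange 𝓘(ℂ, E) p.1 y p.1 p.2 := rfl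

theorem fb_self (x : X) (v : E) : fb (E := E) x ⟨x, v⟩ = v := by
  rw [fb_eq]
  show tangentCoordChange 𝓘(ℂ, E) x x x v = v
  rw [tangentCoordChange_self]
  simp only [extChartAt_source]
  exact mem_chart_source E x

theorem dd {F : Type} [NormedAddCommGroup F] [NormedSpace ℂ F] {f : X → F} {x : X}
    (hf : MDifferentiableAt 𝓘(ℂ, E) 𝓘(ℂ, F) f x) (u : E) :
    (SS.dirDeriv f x u : F) = cd E f x u := by
  have h := hf.mfderiv
  simp only [writtenInExtChartAt, extChartAt, OpenPartialHomeomorph.extend, mfld_simps] at h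
  rw [fderivWithin_univ] at h
  unfold SS.dirDeriv cd
  rw [h]
  rfl

theorem vel_eq (y : X) (f : ℂ → X) (z : ℂ) (hf : MDifferentiableAt 𝓘(ℂ, ℂ) 𝓘(ℂ, E) f z)
    (hz : f z ∈ (chartAt E y).source) : deriv (fun w => chartAt E y (f w)) z =
      fb y (BrodyRigid.velocity (E := E) f z) := by
  have : IsManifold 𝓘(ℂ, E) 1 X := IsManifold.of_le (n := ω) le_top
  rw [fb_eq]
  have h1 : MDifferentiableAt 𝓘(ℂ, E) 𝓘(ℂ, E) (chartAt E y) (f z) :=
    mdifferentiableAt_atlas (I := 𝓘(ℂ, E)) (chart_mem_atlas E y) hz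
  have h2 := mfderiv_comp z h1 hf
  have h3 := mfderiv_chartAt_eq_tangentCoordChange (I := 𝓘(ℂ, E)) hz
  rw [h3] at h2
  have h4 : (chartAt E y ∘ f) = fun w => chartAt E y (f w) := rfl
  rw [h4, mfderiv_eq_fderiv] at h2
  have h5 := congrArg (fun L : ℂ →L[ℂ] E => L 1) h2
  simp only [fderiv_apply_one_eq_deriv] at h5
  exact h5

theorem vel_fst (f : ℂ → X) (z : ℂ) : (BrodyRigid.velocity (E := E) f z).1 = f z := rfl

section etale

variable {Y : Type} [TopologicalSpace Y] [ChartedSpace E Y] [IsManifold 𝓘(ℂ, E) ω Y]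

theorem et_eq (x : X) {π : Y → X} {y : Y} (hπ : MDifferentiableAt 𝓘(ℂ, E) 𝓘(ℂ, E) π y)
    (hy : π y ∈ (chartAt E x).source) (u : E) :
    cd E (fun y' => chartAt E x (π y')) y u =
      fb x (⟨π y, (SS.dirDeriv π y u : E)⟩ : TangentBundle 𝓘(ℂ, E) X) := by
  have : IsManifold 𝓘(ℂ, E) 1 X := IsManifold.of_le (n := ω) le_top
  rw [fb_eq]
  have h1 : MDifferentiableAt 𝓘(ℂ, E) 𝓘(ℂ, E) (chartAt E x) (π y) :=
    mdifferentiableAt_atlas (I := 𝓘(ℂ, E)) (chart_mem_atlas E x) hy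
  have h2 := mfderiv_comp y h1 hπ
  have h3 := mfderiv_chartAt_eq_tangentCoordChange (I := 𝓘(ℂ, E)) hy
  rw [h3] at h2
  have h4 : MDifferentiableAt 𝓘(ℂ, E) 𝓘(ℂ, E) (fun y' => chartAt E x (π y')) y :=
    h1.comp y hπ
  rw [← dd h4 u]
  exact congrArg (fun L : E →L[ℂ] E => L u) h2

theorem etale_inj {π : Y → X} (hπ : IsEtale E π) (y : Y) (v : E)
    (h : (SS.dirDeriv π y v : E) = 0) : v = 0 := by
  have h1 := et_eq (π y) (hπ.1 y) (mem_chart_source E (π y)) v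
  rw [fb_self, h] at h1
  refine hπ.2 y ?_
  rw [h1, map_zero]

end etale

end

section compact

variable {E X : Type} [NormedAddCommGroup E] [NormedSpace ℂ E] [FiniteDimensional ℂ E]
  [TopologicalSpace X] [CompactSpace X] [T2Space X] [ChartedSpace E X] [IsManifold 𝓘(ℂ, E) ω X]

theorem closed_nhd (x : X) : ∃ W ∈ 𝓝 x, IsClosed W ∧ W ⊆ (chartAt E x).source :=
  let ⟨W, h1, h2, h3⟩ := exists_mem_nhds_isClosed_subset (chart_source_mem_nhds E x)
  ⟨W, h1, h2, h3⟩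

theorem fb_cont (y : X) : ContinuousOn (fun p : TangentBundle 𝓘(ℂ, E) X => fb y p)
    {p | p.1 ∈ (chartAt E y).source} := by
  have h := (chartAt (ModelProd E E) (⟨y, 0⟩ : TangentBundle 𝓘(ℂ, E) X)).continuousOn_toFun
  have h2 : {p : TangentBundle 𝓘(ℂ, E) X | p.1 ∈ (chartAt E y).source} ⊆
      (chartAt (ModelProd E E) (⟨y, 0⟩ : TangentBundle 𝓘(ℂ, E) X)).source := by
    intro p hp
    rw [TangentBundle.mem_chart_source_iff]
    exact hp
  exact continuous_snd.comp_continuousOn (h.mono h2)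

/-- the vectors of a compact set are bounded in the charts -/
theorem fb_bound {K : Set (TangentBundle 𝓘(ℂ, E) X)} (hK : IsCompact K) (x : X) :
    ∃ V ∈ 𝓝 x, V ⊆ (chartAt E x).source ∧ ∃ C : ℝ, ∀ p ∈ K, p.1 ∈ V → ‖fb x p‖ ≤ C := by
  obtain ⟨W, hW, hWc, hWs⟩ := closed_nhd (E := E) x
  have hc : Continuous (fun p : TangentBundle 𝓘(ℂ, E) X => p.1) :=
    FiberBundle.continuous_proj E (TangentSpace 𝓘(ℂ, E) : X → Type)
  have h1 : IsCompact (K ∩ {p | p.1 ∈ W}) := hK.inter_right (hWc.preimage hc)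
  have hsub : K ∩ {p : TangentBundle 𝓘(ℂ, E) X | p.1 ∈ W} ⊆ {p | p.1 ∈ (chartAt E x).source} :=
    fun p hp => hWs hp.2
  obtain ⟨C, hC⟩ := h1.exists_bound_of_continuousOn ((fb_cont x).mono hsub)
  exact ⟨W, hW, hWs, C, fun p hp hp' => hC p ⟨hp, hp'⟩⟩

/-- the vectors which are bounded in a chart lie in a compact set -/
theorem fb_compact (x : X) (C : ℝ) : ∃ V ∈ 𝓝 x, V ⊆ (chartAt E x).source ∧
    ∃ K : Set (TangentBundle 𝓘(ℂ, E) X), IsCompact K ∧ ∀ p : TangentBundle 𝓘(ℂ, E) X,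
      p.1 ∈ V → ‖fb x p‖ ≤ C → p ∈ K := by
  obtain ⟨W, hW, hWc, hWs⟩ := closed_nhd (E := E) x
  have : ProperSpace E := FiniteDimensional.proper ℂ E
  set Φ := chartAt (ModelProd E E) (⟨x, 0⟩ : TangentBundle 𝓘(ℂ, E) X) with hΦ
  have h0 : IsCompact (chartAt E x '' W) :=
    hWc.isCompact.image_of_continuousOn ((chartAt E x).continuousOn.mono hWs)
  refine ⟨W, hW, hWs, Φ.symm '' ((chartAt E x '' W) ×ˢ closedBall (0 : E) C), ?_, ?_⟩
  · refine IsCompact.image_of_continuousOn (h0.prod (isCompact_closedBall (0 : E) C)) ?_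
    refine Φ.continuousOn_symm.mono ?_
    rintro ⟨a, b⟩ ⟨⟨w, hw, rfl⟩, hb⟩
    rw [hΦ, TangentBundle.mem_chart_target_iff]
    exact (chartAt E x).map_source (hWs hw)
  · intro p hp hp'
    refine ⟨Φ p, ⟨⟨p.1, hp, rfl⟩, mem_closedBall_zero_iff.2 hp'⟩, ?_⟩
    refine Φ.left_inv ?_
    rw [hΦ, TangentBundle.mem_chart_source_iff]
    exact hWs hp

theorem hyperbolicAt_iff (x : X) : HyperbolicAt E x ↔ StrongLang.HyperbolicAt E x := by
  have hd : ∀ f : ℂ → X, MDifferentiableOn 𝓘(ℂ, ℂ) 𝓘(ℂ, E) f (ball 0 1) →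
      MDifferentiableAt 𝓘(ℂ, ℂ) 𝓘(ℂ, E) f 0 := fun f hf =>
    hf.mdifferentiableAt (ball_mem_nhds 0 one_pos)
  constructor
  · rintro ⟨V, hV, C, h⟩
    obtain ⟨W, hW, hWs, K, hK, h2⟩ := fb_compact (E := E) x C
    refine ⟨V ∩ W, inter_mem hV hW, K, hK, fun f hf hf0 => ?_⟩
    refine h2 _ hf0.2 ?_
    rw [← vel_eq x f 0 (hd f hf) (hWs hf0.2)]
    exact h f hf hf0.1
  · rintro ⟨V, hV, K, hK, h⟩
    obtain ⟨W, hW, hWs, C, h2⟩ := fb_bound (E := E) hK x
    refine ⟨V ∩ W, inter_mem hV hW, C, fun f hf hf0 => ?_⟩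
    rw [vel_eq x f 0 (hd f hf) (hWs hf0.2)]
    exact h2 _ (h f hf hf0.1) hf0.2

theorem brody_old {h : ℂ → X} (hh : IsBrodyCurve E h) : BrodyRigid.IsBrodyCurve (E := E) h := by
  obtain ⟨h1, h2⟩ := hh
  choose V hV C hC using h2
  choose W hW hWs K hK h3 using fun x : X => fb_compact (E := E) x (C x)
  obtain ⟨t, ht⟩ := isCompact_univ.elim_nhds_subcover (fun x => V x ∩ W x)
    (fun x _ => inter_mem (hV x) (hW x))
  refine ⟨h1, ⋃ x ∈ t, K x, t.isCompact_biUnion fun x _ => hK x, fun z => ?_⟩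
  obtain ⟨x, hx, hx'⟩ := mem_iUnion₂.1 (ht.2 (mem_univ (h z)))
  refine mem_iUnion₂.2 ⟨x, hx, h3 x _ hx'.2 ?_⟩
  rw [← vel_eq x h z (h1 z) (hWs x hx'.2)]
  exact hC x z hx'.1

theorem bounded_old {Y : Type} [TopologicalSpace Y] [ChartedSpace E Y]
    (h : IsBoundedCovering E X Y) : NullCurves.HasBoundedDerivative E X := by
  obtain ⟨hY, hM, π, f, hc, he, hf, hne, hb⟩ := h
  refine ⟨Y, inferInstance, hY, inferInstance, hM, π, f, hc, he.1, etale_inj he, hf, hne, ?_⟩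
  intro K hK
  choose V hV C hC using hb
  choose W hW hWs C' hC' using fun x : X => fb_bound (E := E) hK x
  obtain ⟨t, ht⟩ := isCompact_univ.elim_nhds_subcover (fun x => V x ∩ W x)
    (fun x _ => inter_mem (hV x) (hW x))
  refine ⟨∑ x ∈ t, |C x| * |C' x|, fun y v hv => ?_⟩
  obtain ⟨x, hx, hx'⟩ := mem_iUnion₂.1 (ht.2 (mem_univ (π y)))
  have h1 := hC x y v hx'.1
  have h2 := hC' x _ hv hx'.2
  rw [← et_eq x (he.1 y) (hWs x hx'.2) v] at h2
  have h3 : (SS.dirDeriv f y v : ℂ) = cd E f y v := dd (hf y) v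
  rw [h3]
  have h4 : ‖cd E f y v‖ ≤ |C x| * |C' x| := by
    refine h1.trans ?_
    exact mul_le_mul (le_abs_self _) (h2.trans (le_abs_self _)) (norm_nonneg _) (abs_nonneg _)
  refine h4.trans ?_
  exact Finset.single_le_sum (f := fun x => |C x| * |C' x|) (fun i _ => by positivity) hx

end compact

end Pool.Agent.BD
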