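import Pool.Agent.Lib_helper51.BD.F2

/-! # Tori and lattices -/

set_option autoImplicit false
set_option linter.unusedSectionVars false
set_option linter.unusedVariables false

open Filter Topology Metric Set
open scoped Manifold ContDiff

namespace Pool.Agent.BD

/-- a function which is periodic for a basis is periodic for the lattice -/
theorem per_span {V X ι : Type} [AddCommGroup V] {b : ι → V} {f : V → X}
    (h : ∀ i v, f (v + b i) = f v) : ∀ l ∈ Submodule.span ℤ (range b), ∀ z, f (z + l) = f z := by
  intro l hl
  induction hl using Submodule.span_induction with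
  | mem x hx =>
    obtain ⟨i, rfl⟩ := hx
    exact h i
  | zero => intro z; rw [add_zero]
  | add x y _ _ hx hy => intro z; rw [← add_assoc, hy, hx]
  | smul a x _ hx =>
    have hn : ∀ n : ℕ, ∀ z, f (z + n • x) = f z := by
      intro n
      induction n with
      | zero => intro z; rw [zero_smul, add_zero]
      | succ n ih => intro z; rw [succ_nsmul, ← add_assoc, hx, ih]
    intro z
    obtain ⟨n, rfl | rfl⟩ := Int.eq_nat_or_neg a
    · have := hn n z
      rwa [natCast_zsmul]
    · have := hn n (z + (-(n : ℤ)) • x)
      rw [neg_smul, natCast_zsmul, neg_add_cancel_right] at this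
      rw [neg_smul, natCast_zsmul]
      exact this.symm

theorem elliptic_iff {X : Type} (g : ℂ → X) : BrodyRigid.DoublyPeriodic g ↔
    ∃ a b : ℂ, (a / b).im ≠ 0 ∧ ∀ z, g (z + a) = g z ∧ g (z + b) = g z := by
  constructor
  · rintro ⟨Λ, h1, h2, h3⟩
    have hfree : Module.Free ℤ Λ := ZLattice.module_free ℝ Λ
    have hfin : Module.Finite ℤ Λ := ZLattice.module_finite ℝ Λ
    set β := Module.Free.chooseBasis ℤ Λ with hβ
    set B := β.ofZLatticeBasis ℝ Λ with hB
    have hBmem : ∀ i, B i ∈ Λ := by
      intro i
      rw [hB, Module.Basis.ofZLatticeBasis_apply]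
      exact (β i).2
    have hcard : Fintype.card (Module.Free.ChooseBasisIndex ℤ Λ) = 2 := by
      rw [← Module.finrank_eq_card_basis B, Complex.finrank_real_complex]
    obtain ⟨i, j, hij⟩ := Fintype.one_lt_card_iff.1 (by omega : 1 < Fintype.card
      (Module.Free.ChooseBasisIndex ℤ Λ))
    refine ⟨B i, B j, ?_, fun z => ⟨h3 _ (hBmem i) z, h3 _ (hBmem j) z⟩⟩
    intro h0
    have hj : B j ≠ 0 := B.ne_zero j
    have h4 : B i = (B i / B j).re • B j := by
      have h5 : (B i / B j) = ((B i / B j).re : ℂ) := by
        apply Complex.ext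
        · simp
        · rw [h0]; simp
      rw [Complex.real_smul, ← h5, div_mul_cancel₀ _ hj]
    have h5 := B.linearIndependent
    have h6 := (LinearIndependent.pair_iff' (K := ℝ) hj).1
      (h5.comp ![j, i] (by
        intro a b hab
        fin_cases a <;> fin_cases b <;> simp_all) |> fun h => by
          have e : (B ∘ ![j, i]) = ![B j, B i] := by
            funext a
            fin_cases a <;> rfl
          rw [e] at h
          exact h) (B i / B j).re
    exact h6 h4.symm
  · rintro ⟨a, b, hab, h⟩
    have hb : b ≠ 0 := by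
      rintro rfl
      simp at hab
    have hli : LinearIndependent ℝ ![a, b] := by
      rw [LinearIndependent.pair_iff]
      intro s t hst
      have h1 : (s : ℂ) * (a / b) + t = 0 := by
        have h2 : (s : ℂ) * a + t * b = 0 := by
          rw [← Complex.real_smul, ← Complex.real_smul]
          exact hst
        field_simp
        linear_combination h2
      have h2 := congrArg Complex.im h1
      simp only [Complex.add_im, Complex.re_ofReal_mul, Complex.im_ofReal_mul, Complex.ofReal_im,
        Complex.zero_im, add_zero] at h2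
      have hs : s = 0 := by
        rcases mul_eq_zero.1 h2 with h3 | h3
        · exact h3
        · exact absurd h3 hab
      rw [hs] at h1
      simp only [Complex.ofReal_zero, zero_mul, zero_add] at h1
      exact ⟨hs, by exact_mod_cast h1⟩
    have hcard : Fintype.card (Fin 2) = Module.finrank ℝ ℂ := by
      rw [Complex.finrank_real_complex]; rfl
    set B := basisOfLinearIndependentOfCardEqFinrank hli hcard with hB
    refine ⟨Submodule.span ℤ (range B), inferInstance, inferInstance, ?_⟩
    refine per_span ?_
    intro i v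
    have e : B i = ![a, b] i := by
      rw [hB, coe_basisOfLinearIndependentOfCardEqFinrank]
    rw [e]
    fin_cases i
    · exact (h v).1
    · exact (h v).2

section

variable {E X : Type} [NormedAddCommGroup E] [NormedSpace ℂ E]
  [TopologicalSpace X] [ChartedSpace E X]

theorem isElliptic_iff (g : ℂ → X) : IsElliptic E g ↔
    MDifferentiable 𝓘(ℂ, ℂ) 𝓘(ℂ, E) g ∧ BrodyRigid.DoublyPeriodic g :=
  and_congr Iff.rfl (elliptic_iff g).symm

theorem noElliptic_iff : BrodyRigid.NoEllipticMaps E X ↔
    ∀ g : ℂ → X, IsElliptic E g → ∀ z z', g z = g z' := by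
  constructor
  · intro h g hg
    have := (isElliptic_iff g).1 hg
    exact h g this.1 this.2
  · intro h g hg hg'
    exact h g ((isElliptic_iff g).2 ⟨hg, hg'⟩)

theorem noTorus_iff : SS.NoTorusMaps E X ↔
    ∀ (V : Type) [NormedAddCommGroup V] [NormedSpace ℂ V] [FiniteDimensional ℂ V],
      ConstantOnTori E X V := by
  constructor
  · intro h V _ _ _ ι b f hf hp
    have : FiniteDimensional ℝ V := FiniteDimensional.complexToReal V
    have : Finite ι := Module.Finite.finite_basis b
    exact h V (Submodule.span ℤ (range b)) f hf (per_span hp)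
  · intro h V _ _ _ Λ _ _ f hf hp
    have : FiniteDimensional ℝ V := FiniteDimensional.complexToReal V
    have hfree : Module.Free ℤ Λ := ZLattice.module_free ℝ Λ
    set β := Module.Free.chooseBasis ℤ Λ with hβ
    refine h V _ (β.ofZLatticeBasis ℝ Λ) f hf ?_
    intro i v
    refine hp _ ?_ v
    rw [Module.Basis.ofZLatticeBasis_apply]
    exact (β i).2

theorem mapsTo_old {W : Type} [NormedAddCommGroup W] [NormedSpace ℂ W] [FiniteDimensional ℂ W]
    (h : MapsTo E X W) : StrongLang.MapsToTorus E X := by
  obtain ⟨Γ, g, ⟨r, hr, hΓ⟩, hg, x, y, hxy⟩ := h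
  have hd : DiscreteTopology (AddSubgroup.toIntSubmodule Γ) := by
    refine discreteTopology_of_isOpen_singleton_zero ?_
    rw [Metric.isOpen_iff]
    rintro a ha
    rw [mem_singleton_iff.1 ha]
    refine ⟨r, hr, fun b hb => ?_⟩
    by_contra hne
    have h1 : (b : W) ≠ 0 := fun h => hne (mem_singleton_iff.2 (Subtype.ext h))
    have h2 := hΓ b b.2 h1
    rw [mem_ball, dist_zero_right] at hb
    exact lt_irrefl _ (h2.trans hb)
  refine ⟨W, inferInstance, inferInstance, inferInstance, AddSubgroup.toIntSubmodule Γ, hd,
    fun x => Submodule.Quotient.mk (g x), ?_, x, y, ?_⟩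
  · intro x
    obtain ⟨F, hF⟩ := hg x
    refine ⟨F, hF.mono fun y hy => ⟨hy.1, ?_⟩⟩
    exact (Submodule.Quotient.eq _).2 hy.2
  · intro h
    exact hxy ((Submodule.Quotient.eq _).1 h)

end

end Pool.Agent.BD
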