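import Pool.Agent.Lib_helper51.BD.F2

/-! # Jet gauges, null germs, symmetric differentials, flat distances -/

set_option autoImplicit false
set_option linter.unusedSectionVars false
set_option linter.unusedVariables false

open Filter Topology Metric Set
open scoped Manifold ContDiff Nat

namespace Pool.Agent.BD

section pol

variable {E : Type} [NormedAddCommGroup E] [NormedSpace ℂ E]

/-- the polynomial curve with the jet `J` -/
noncomputable def pol (k : ℕ) (J : Fin (k + 1) → E) (z : ℂ) : E :=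
  ∑ p : Fin (k + 1), (z ^ (p : ℕ) / ((p : ℕ)! : ℂ)) • J p

theorem pol_an {k : ℕ} (J : Fin (k + 1) → E) (z : ℂ) : AnalyticAt ℂ (pol k J) z := by
  unfold pol
  apply Finset.analyticAt_fun_sum
  intro p _
  have h : AnalyticAt ℂ (fun z : ℂ => z ^ (p : ℕ) / ((p : ℕ)! : ℂ)) z := by
    apply AnalyticAt.div
    · exact analyticAt_id.pow _
    · exact analyticAt_const
    · exact_mod_cast Nat.factorial_ne_zero _
  exact h.smul analyticAt_const

theorem pol_jet [CompleteSpace E] {k : ℕ} (J : Fin (k + 1) → E) (q : Fin (k + 1)) :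
    iteratedDeriv q (pol k J) 0 = J q := by
  unfold pol
  have h : ∀ p : Fin (k + 1), AnalyticAt ℂ (fun z : ℂ => z ^ (p : ℕ) / ((p : ℕ)! : ℂ)) 0 := by
    intro p
    apply AnalyticAt.div
    · exact analyticAt_id.pow _
    · exact analyticAt_const
    · exact_mod_cast Nat.factorial_ne_zero _
  have h' : ∀ p : Fin (k + 1), AnalyticAt ℂ (fun z : ℂ => (z ^ (p : ℕ) / ((p : ℕ)! : ℂ)) • J p) 0 :=
    fun p => (h p).smul analyticAt_const
  rw [iteratedDeriv_fun_sum (fun p _ => (h' p).contDiffAt)]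
  have h2 : ∀ p : Fin (k + 1), iteratedDeriv q (fun z : ℂ => (z ^ (p : ℕ) / ((p : ℕ)! : ℂ)) • J p) 0
      = (iteratedDeriv q (fun z : ℂ => z ^ (p : ℕ)) 0 / ((p : ℕ)! : ℂ)) • J p := by
    intro p
    rw [iteratedDeriv_smul_const (h p).contDiffAt, iteratedDeriv_div_const]
  rw [Finset.sum_congr rfl fun p _ => h2 p, Finset.sum_eq_single q]
  · rw [iteratedDeriv_fun_pow_zero, if_pos rfl, div_self, one_smul]
    exact_mod_cast Nat.factorial_ne_zero _
  · intro p _ hp
    have h3 : (q : ℕ) ≠ p := fun h3 => hp (Fin.ext h3.symm)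
    rw [iteratedDeriv_fun_pow_zero, if_neg h3]
    simp
  · intro h3
    exact absurd (Finset.mem_univ q) h3

end pol

section

variable {E X : Type} [NormedAddCommGroup E] [NormedSpace ℂ E] [FiniteDimensional ℂ E]
  [TopologicalSpace X] [ChartedSpace E X] [IsManifold 𝓘(ℂ, E) ω X]

theorem germ_pol {k : ℕ} {y : X} {J : Fin (k + 1) → E} (hJ : J 0 ∈ (chartAt E y).target) :
    IsGerm E (fun z => (chartAt E y).symm (pol k J z)) ∧
      ∀ q : Fin (k + 1), iteratedDeriv q (fun z => chartAt E y ((chartAt E y).symm (pol k J z))) 0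
        = J q := by
  have : CompleteSpace E := FiniteDimensional.complete ℂ E
  have h0 : pol k J 0 = J 0 := by
    have := pol_jet J 0
    simpa using this
  have h1 : ∀ᶠ z in 𝓝 (0 : ℂ), pol k J z ∈ (chartAt E y).target := by
    refine (pol_an J 0).continuousAt.eventually ((chartAt E y).open_target.mem_nhds ?_)
    rw [h0]
    exact hJ
  refine ⟨?_, fun q => ?_⟩
  · filter_upwards [h1] with z hz
    have h2 : MDifferentiableAt 𝓘(ℂ, E) 𝓘(ℂ, E) (chartAt E y).symm (pol k J z) :=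
      mdifferentiableAt_atlas_symm (chart_mem_atlas E y) hz
    have h3 : MDifferentiableAt 𝓘(ℂ, ℂ) 𝓘(ℂ, E) (pol k J) z :=
      (mdifferentiableAt_iff_differentiableAt).2 (pol_an J z).differentiableAt
    exact h2.comp z h3
  · have h2 : (fun z => chartAt E y ((chartAt E y).symm (pol k J z))) =ᶠ[𝓝 0] pol k J := by
      filter_upwards [h1] with z hz
      exact (chartAt E y).right_inv hz
    rw [h2.iteratedDeriv_eq]
    exact pol_jet J q

theorem gauge_old {k : ℕ} {L : (ℂ → X) → ℝ} (hL : IsJetGauge E k L) :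
    NullCurves.IsJetGauge E k L := by
  have : CompleteSpace E := FiniteDimensional.complete ℂ E
  obtain ⟨h1, h2⟩ := hL
  refine ⟨fun y => ?_, fun c hc => (h1 c hc).1, fun c hc y hy h => ((h1 c hc).2 y hy).1 h,
    fun f r R hr hR hf => h2 f r R hr hR fun z hz => hf z (mem_ball_zero_iff.2 hz)⟩
  have hcs : ∀ J : Fin (k + 1) → E, J 0 ∈ (chartAt E y).target →
      (chartAt E y).symm (pol k J 0) ∈ (chartAt E y).source := by
    intro J hJ
    have h0 : pol k J 0 = J 0 := by
      have := pol_jet J 0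
      simpa using this
    rw [h0]
    exact (chartAt E y).map_target hJ
  refine ⟨fun J => L (fun z => (chartAt E y).symm (pol k J z)), ?_, ?_⟩
  · intro J hJ b hb
    obtain ⟨hg, hj⟩ := germ_pol (E := E) hJ
    obtain ⟨δ, hδ, h3⟩ := ((h1 _ hg).2 y (hcs J hJ)).2 (b - L _) (sub_pos.2 hb)
    have h4 : ∀ᶠ J' in 𝓝[{J | J 0 ∈ (chartAt E y).target}] J, dist J' J < δ :=
      mem_nhdsWithin_of_mem_nhds (ball_mem_nhds J hδ)
    filter_upwards [h4, self_mem_nhdsWithin] with J' hJ' hJ't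
    obtain ⟨hg', hj'⟩ := germ_pol (E := E) hJ't
    have h5 := h3 _ hg' (hcs J' hJ't) ?_
    · show L _ < b
      linarith
    · intro q hq
      have h6 := hj ⟨q, Nat.lt_succ_of_le hq⟩
      have h7 := hj' ⟨q, Nat.lt_succ_of_le hq⟩
      simp only at h6 h7
      rw [h6, h7, ← dist_eq_norm]
      exact (dist_le_pi_dist J' J _).trans_lt hJ'
  · intro c hc hc0
    set J := MinBrody.chartJet E k y c with hJdef
    have hJ0 : J 0 = chartAt E y (c 0) := by
      rw [hJdef]
      simp [MinBrody.chartJet]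
    have hJ : J 0 ∈ (chartAt E y).target := by
      rw [hJ0]
      exact (chartAt E y).map_source hc0
    obtain ⟨hg, hj⟩ := germ_pol (E := E) hJ
    have hq : ∀ q ≤ k, iteratedDeriv q (fun z => chartAt E y ((chartAt E y).symm (pol k J z))) 0 =
        iteratedDeriv q (fun z => chartAt E y (c z)) 0 := by
      intro q hq
      exact hj ⟨q, Nat.lt_succ_of_le hq⟩
    apply le_antisymm
    · refine le_of_forall_pos_le_add fun ε hε => ?_
      obtain ⟨δ, hδ, h3⟩ := ((h1 _ hg).2 y (hcs J hJ)).2 ε hε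
      exact (h3 c hc hc0 fun q hq' => by rw [hq q hq', sub_self, norm_zero]; exact hδ).le
    · refine le_of_forall_pos_le_add fun ε hε => ?_
      obtain ⟨δ, hδ, h3⟩ := ((h1 _ hc).2 y hc0).2 ε hε
      exact (h3 _ hg (hcs J hJ) fun q hq' => by rw [hq q hq', sub_self, norm_zero]; exact hδ).le

theorem nullGerm_new {c : ℂ → X} (h : NullCurves.IsNullGerm E c) : IsNullGerm E c :=
  h.mono fun z hz k L hL => hz k L (gauge_old hL)

/-- a symmetric differential in the charts, as a function on the tangent bundle -/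
theorem sym_old {m : ℕ} {σ : X → X → E → ℂ} (hσ : IsSymDiff E m σ) :
    SS.IsSymDiff E X m (fun p => σ p.1 p.1 p.2) := by
  have key : ∀ (y : X) (p : TangentBundle 𝓘(ℂ, E) X), p.1 ∈ (chartAt E y).source →
      σ p.1 p.1 p.2 = σ y p.1 (fb y p) := by
    intro y p hp
    have h1 := ((hσ p.1).1 p.1 (mem_chart_source E p.1) p.2).2 y hp
    rw [h1, fb_eq]
    congr 1
    rw [tangentCoordChange_def]
    simp only [mfld_simps]
    rw [fderivWithin_univ]
    rfl
  refine ⟨?_, ?_⟩
  · intro p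
    obtain ⟨x, v⟩ := p
    set Φ := chartAt (ModelProd E E) (⟨x, 0⟩ : TangentBundle 𝓘(ℂ, E) X) with hΦ
    have hps : (⟨x, v⟩ : TangentBundle 𝓘(ℂ, E) X) ∈ Φ.source := by
      rw [hΦ, TangentBundle.mem_chart_source_iff]
      exact mem_chart_source E x
    obtain ⟨G, hG⟩ : ∃ G : ModelProd E E → ℂ, G = fun q => σ x ((chartAt E x).symm q.1) q.2 :=
      ⟨_, rfl⟩
    have hΦp : Φ (⟨x, v⟩ : TangentBundle 𝓘(ℂ, E) X) = ((chartAt E x x, (show E from v)) : E × E) :=
      (fb_chart x ⟨x, v⟩).trans (Prod.ext rfl (fb_self x (show E from v)))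
    have h1 : DifferentiableAt ℂ (fun q : E × E => G q) (Φ ⟨x, v⟩) := by
      rw [hΦp, hG]
      exact ((hσ x).1 x (mem_chart_source E x) v).1
    have h2 : MDifferentiableAt (𝓘(ℂ, E).prod 𝓘(ℂ, E)) 𝓘(ℂ, ℂ) G (Φ ⟨x, v⟩) := by
      rw [mdifferentiableAt_iff]
      refine ⟨h1.continuousAt, ?_⟩
      simp only [writtenInExtChartAt, extChartAt, OpenPartialHomeomorph.extend, chartAt_self_eq,
        mfld_simps]
      rw [Prod.map_id, range_id, differentiableWithinAt_univ]
      exact h1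
    have h3 : MDifferentiableAt (𝓘(ℂ, E).prod 𝓘(ℂ, E)) (𝓘(ℂ, E).prod 𝓘(ℂ, E)) Φ ⟨x, v⟩ :=
      mdifferentiableAt_atlas (chart_mem_atlas _ _) hps
    have h4 : MDifferentiableAt (𝓘(ℂ, E).prod 𝓘(ℂ, E)) 𝓘(ℂ, ℂ) (fun p' => G (Φ p')) ⟨x, v⟩ :=
      h2.comp (f := fun p' => Φ p') _ h3
    refine h4.congr_of_eventuallyEq ?_
    filter_upwards [Φ.open_source.mem_nhds hps] with p' hp'
    rw [hΦ, TangentBundle.mem_chart_source_iff] at hp'
    rw [key x p' hp']
    show _ = G (Φ p')
    rw [hΦ, fb_chart, hG]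
    show _ = σ x ((chartAt E x).symm (chartAt E x p'.1)) _
    rw [(chartAt E x).left_inv hp']
  · intro x
    obtain ⟨n, l, hl⟩ := (hσ x).2 x (mem_chart_source E x)
    refine ⟨∑ i ∈ Finset.range n, (ContinuousMultilinearMap.mkPiAlgebra ℂ (Fin m) ℂ).compContinuousLinearMap
      (fun j : Fin m => l i j), fun w => ?_⟩
    show σ x x w = _
    rw [hl w, _root_.sum_apply]
    refine Finset.sum_congr rfl fun i _ => ?_
    rw [ContinuousMultilinearMap.compContinuousLinearMap_apply,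
      ContinuousMultilinearMap.mkPiAlgebra_apply, Finset.prod_range]

theorem coprime_old {m m' : ℕ} {σ σ' : X → X → E → ℂ} {x : X} (hm : 0 < m) (hm' : 0 < m')
    (hσ : IsSymDiff E m σ) (hσ' : IsSymDiff E m' σ')
    (h : ∀ v : E, v ≠ 0 → σ x x v = 0 → σ' x x v ≠ 0) : StrongLang.CoprimeSymDiffs E X :=
  ⟨m, m', _, _, x, hm, hm', sym_old hσ, sym_old hσ', h⟩

theorem flat_old {ρ : X → X → ℝ} (h : IsFlatDist E ρ) :
    NullCurves.IsFlatDist E ρ ∧ NullCurves.IsNontrivial ρ := by
  refine ⟨fun x => ?_, h.2⟩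
  obtain ⟨V, i1, i2, i3, F, hF, hρ⟩ := h.1 x
  exact ⟨V, i1, i2, i3, F, hF, hρ⟩

end

end Pool.Agent.BD
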