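import Pool.Agent.Lib_helper51.BD.F1
import Pool.Agent.Lib_helper51.BD.F3
import Pool.Agent.Lib_helper51.BD.F4
import Pool.Agent.Lib_helper82.KZ.Main

/-! # Brody curves and flat distances on surfaces: the theorem for the definitions in `Defs` -/

set_option autoImplicit false
set_option linter.unusedSectionVars false
set_option linter.unusedVariables false

open Filter Topology Metric Set
open scoped Manifold ContDiff

namespace Pool.Agent.BD

open Pool.Agent.NullCurves

section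

variable {E X : Type} [NormedAddCommGroup E] [NormedSpace ℂ E] [FiniteDimensional ℂ E]
  [TopologicalSpace X] [ChartedSpace E X] [IsManifold 𝓘(ℂ, E) ω X]

theorem basis_of (hE : Module.finrank ℂ E = 2) : Nonempty (Module.Basis (Fin 2) ℂ E) :=
  ⟨(Module.finBasis ℂ E).reindex (finCongr hE)⟩

theorem tame_old (hE : Module.finrank ℂ E = 2) {c : ℂ → X} (h : IsTameGerm E c) :
    NullCurves.IsTameGerm E c := by
  obtain ⟨e⟩ := basis_of hE
  rcases h with ⟨k, s, hk, hs, ⟨x, hx⟩, hc⟩ | ⟨ρ, hρ, hc⟩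
  · refine Or.inl ⟨k, tau e k s, hk, (BrodyRigid.isPlaneForm_iff k _).2 (tau_plane e hs),
      ⟨x, e 0, e 1, ?_⟩, hc.mono fun z hz u v => ?_⟩
    · show s x x * ND.i4_w e (e 0) (e 1) ^ k ≠ 0
      rw [ND.i4_w_basis, one_pow, mul_one]
      exact hx
    · show s (c z) (c z) * _ = 0
      rw [hz, zero_mul]
  · exact Or.inr ⟨ρ, (flat_old hρ).1, (flat_old hρ).2, hc⟩

theorem dense_new (hE : Module.finrank ℂ E = 2) {h : ℂ → X} (hh : StrongLang.ZariskiDense E h) :
    ZariskiDense E h := by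
  obtain ⟨e⟩ := basis_of hE
  intro k s hk hs hz x
  have h1 := hh k (tau e k s) hk ((BrodyRigid.isPlaneForm_iff k _).2 (tau_plane e hs))
    (fun z u v => ?_) x (e 0) (e 1)
  · change s x x * ND.i4_w e (e 0) (e 1) ^ k = 0 at h1
    rwa [ND.i4_w_basis, one_pow, mul_one] at h1
  · show s (h z) (h z) * _ = 0
    rw [hz, zero_mul]

theorem germ_deriv {c : ℂ → X} (hc : IsGerm E c)
    (hv : BrodyRigid.velocity (E := E) c 0 ≠ ⟨c 0, (0 : E)⟩) :
    deriv (fun z => chartAt E (c 0) (c z)) 0 ≠ 0 := by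
  intro h
  apply hv
  rw [vel_eq (c 0) c 0 hc.self_of_nhds (mem_chart_source E _)] at h
  have h3 : fb (E := E) (c 0) (BrodyRigid.velocity (E := E) c 0) =
      (show E from (BrodyRigid.velocity (E := E) c 0).2) := fb_self (c 0) _
  exact congrArg (fun v : E => (⟨c 0, v⟩ : TangentBundle 𝓘(ℂ, E) X)) (h3.symm.trans h)

end

section

variable {E X : Type} [NormedAddCommGroup E] [NormedSpace ℂ E] [FiniteDimensional ℂ E]
  [TopologicalSpace X] [CompactSpace X] [T2Space X] [ConnectedSpace X] [ChartedSpace E X]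
  [IsManifold 𝓘(ℂ, E) ω X]

theorem covering_tame (hE : Module.finrank ℂ E = 2) {X' : Type} [TopologicalSpace X']
    [ChartedSpace E X'] (h : IsTameCovering E X X') : NullCurves.NullGermsTame E X := by
  obtain ⟨hc, ht2, hcn, hm, ⟨π, hπ⟩, ht⟩ := h
  rcases ht with ⟨ρ, hρ⟩ | ⟨W, _, _, hW, hM⟩ | ⟨m, m', σ, σ', x, hm, hm', hσ, hσ', h⟩ | h
  · exact KZ.flat_tame ⟨X', inferInstance, hc, ht2, hcn, inferInstance, hm, π, hπ.1,
      etale_inj hπ, ρ, flat_old hρ⟩
  · exact KZ.irregular_tame hE ⟨X', inferInstance, hc, ht2, hcn, inferInstance, hm, π, hπ.1,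
      etale_inj hπ, Or.inl (mapsTo_old hM)⟩
  · exact KZ.irregular_tame hE ⟨X', inferInstance, hc, ht2, hcn, inferInstance, by assumption, π,
      hπ.1, etale_inj hπ, Or.inr (coprime_old hm hm' hσ hσ' h)⟩
  · exact ⟨X', inferInstance, hc, ht2, hcn, inferInstance, hm, π, hπ.1, etale_inj hπ,
      fun c hc hv hn => tame_old hE (h c hc (germ_deriv hc hv) (nullGerm_new hn))⟩

theorem main (hX : CanonicalAmple E X) :
    ((∃ (Y : Type) (_ : TopologicalSpace Y) (_ : ChartedSpace E Y), IsBoundedCovering E X Y) ∨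
        (∃ (X' : Type) (_ : TopologicalSpace X') (_ : ChartedSpace E X'), IsTameCovering E X X') →
      List.TFAE [∀ g : ℂ → X, IsElliptic E g → ∀ z z', g z = g z',
        ∀ (V : Type) [NormedAddCommGroup V] [NormedSpace ℂ V] [FiniteDimensional ℂ V],
          ConstantOnTori E X V,
        ∀ f : ℂ → X, MDifferentiable 𝓘(ℂ, ℂ) 𝓘(ℂ, E) f → ∀ z z', f z = f z',
        ∀ x : X, HyperbolicAt E x]) ∧
    ∀ h : ℂ → X, IsBrodyCurve E h → (∃ z z', h z ≠ h z') →
      (∃ g : ℂ → X, IsElliptic E g ∧ (∃ z z', g z ≠ g z') ∧ Set.range h ⊆ Set.range g) ∨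
      (ZariskiDense E h ∧ ∀ z : ℂ,
        IsNullGerm E (fun w => h (z + w)) ∧ ¬ IsTameGerm E (fun w => h (z + w))) := by
  have hX' := canonicalAmple_old hX
  refine ⟨fun h => ?_, fun h hh hne => ?_⟩
  · have hT : NullCurves.NullGermsTame E X := by
      rcases h with ⟨Y, _, _, h⟩ | ⟨X', _, _, h⟩
      · exact KZ.flat_tame (KZ.bounded_flat (bounded_old h))
      · exact covering_tame hX.1 h
    have h1 := KZ.tame_main hX' hT
    have e4 : (∀ x : X, HyperbolicAt E x) ↔ ∀ x : X, StrongLang.HyperbolicAt E x :=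
      forall_congr' hyperbolicAt_iff
    rw [e4, ← noElliptic_iff, ← noTorus_iff]
    exact h1
  · rcases KZ.brody_dichotomy hX' (brody_old hh) hne with ⟨g, hg, hg', hgne, hr⟩ | ⟨h1, h2⟩
    · exact Or.inl ⟨g, (isElliptic_iff g).2 ⟨hg, hg'⟩, hgne, hr⟩
    · exact Or.inr ⟨dense_new hX.1 h1, fun z => ⟨nullGerm_new (h2 z).1,
        fun h3 => (h2 z).2 (tame_old hX.1 h3)⟩⟩

end

end Pool.Agent.BD
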